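import Pool.Agent.W838.DC.Stm3

/-!
# DC-ZREG: dual zircons are regular
-/

set_option autoImplicit false

namespace Pool.Agent.W991.DC

open Pool.Agent.W838.DC Pool.Agent.W838.DC.Sys

variable {V X : Type*} [AddCommGroup V]

theorem zreg (σ : Sys V X) (h1 : S_VA σ) (h2 : S_VX σ) (h3 : S_CNT σ) : S_ZREG σ := by
  intro x
  induction hn : σ.mu x using Nat.strong_induction_on generalizing x with
  | _ n ih =>
  intro hx
  have hstep : ∀ a, σ.Psi x a → σ.RegUp (σ.r a x) := by
    intro a ha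
    refine ih (σ.mu (σ.r a x)) ?_ (σ.r a x) rfl ?_
    · rw [← hn]
      exact (h3 x a ha.1).1
    · intro v hv
      exact hx v (Relation.ReflTransGen.head ⟨a, ha, rfl⟩ hv)
  have hself : σ.VReg x := by
    by_cases he : ∃ a, σ.Psi x a
    · obtain ⟨M, hM⟩ := hx x Relation.ReflTransGen.refl he
      obtain ⟨α, k1, k2, k3⟩ := h1 x M hM he
      exact h2 x α hstep k1 k2 k3
    · exact ⟨fun a _ ha => absurd ⟨a, ha⟩ he, fun a _ ha => absurd ⟨a, ha⟩ he,
        fun a _ ha => absurd ⟨a, ha⟩ he⟩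
  intro y hy
  rcases Relation.ReflTransGen.cases_head hy with rfl | ⟨z, ⟨a, ha, rfl⟩, hz⟩
  · exact hself
  · exact hstep a ha y hz

end Pool.Agent.W991.DC
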